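import Pool.Agent.Mg.Fc6d393p.G5b3413

set_option autoImplicit false

open Filter

/-- For all large `x` and all `2 ≤ z ≤ (log x) ^ κ`, at least `c x / (log z) ^ 2` integers `n < x`
have `n ^ 2 + π n` cube-free and free of prime factors up to `z`. -/
theorem Pool.Agent.Results.MP_c6d393_nt.CubeFreeRough.result :
    ∃ c κ : ℝ, 0 < c ∧ 0 < κ ∧ ∀ᶠ x : ℕ in atTop, ∀ z : ℕ, 2 ≤ z → (z : ℝ) ≤ Real.log x ^ κ →
      c * x / Real.log z ^ 2 ≤
        (Set.ncard {n : ℕ | n < x ∧ ∀ p : ℕ, p.Prime →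
          (p ≤ z → ¬ p ∣ n ^ 2 + Nat.primeCounting n) ∧
            ¬ p ^ 3 ∣ n ^ 2 + Nat.primeCounting n} : ℝ) := by
  classical
  obtain ⟨c, hc, z₀, x₀, hz₀, h⟩ := Pool.Agent.MP_c6d393_nt.R.main
  have l2 : 0 < Real.log 2 := Real.log_pos (by norm_num)
  have lm : ∀ z : ℕ, 2 ≤ z → Real.log 2 ≤ Real.log z := fun z hz =>
    Real.log_le_log (by norm_num) (by exact_mod_cast hz)
  have l0 := lm z₀ hz₀
  have l1 : 0 < Real.log z₀ := l2.trans_le l0
  refine ⟨c * (Real.log 2 / Real.log z₀) ^ 2, 1 / 100890, by positivity, by norm_num, ?_⟩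
  filter_upwards [eventually_ge_atTop x₀, (Real.tendsto_log_atTop.comp
    tendsto_natCast_atTop_atTop).eventually_ge_atTop ((z₀ : ℝ) ^ 100890)] with x hx hx2 z hz hzx
  have l3 := lm z hz
  have l4 : 0 < Real.log z := l2.trans_le l3
  have hxl : 0 ≤ Real.log x := le_trans (by positivity) hx2
  have e : {n : ℕ | n < x ∧ ∀ p : ℕ, p.Prime → (p ≤ z → ¬ p ∣ n ^ 2 + Nat.primeCounting n) ∧
      ¬ p ^ 3 ∣ n ^ 2 + Nat.primeCounting n} = ↑((Finset.range x).filter fun n => ∀ p : ℕ,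
      p.Prime → (p ≤ z → ¬ p ∣ n ^ 2 + Nat.primeCounting n) ∧
        ¬ p ^ 3 ∣ n ^ 2 + Nat.primeCounting n) := by
    ext n; simp
  rw [e, Set.ncard_coe_finset]
  rcases le_total z₀ z with h1 | h1
  · refine le_trans ?_ (h x z hx h1 ?_)
    · have a1 : (Real.log 2 / Real.log z₀) ^ 2 ≤ 1 :=
        pow_le_one₀ (by positivity) ((div_le_one l1).2 l0)
      gcongr
      exact mul_le_of_le_one_right hc.le a1
    · refine (pow_le_pow_left₀ (by positivity) hzx _).trans (le_of_eq ?_)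
      rw [← Real.rpow_natCast, ← Real.rpow_mul hxl]
      norm_num
  · refine le_trans ?_ ((h x z₀ hx le_rfl hx2).trans (Nat.cast_le.2 (Finset.card_le_card ?_)))
    · have a1 : c * (Real.log 2 / Real.log z₀) ^ 2 * x / Real.log z ^ 2 =
          c * x / Real.log z₀ ^ 2 * (Real.log 2 / Real.log z) ^ 2 := by field_simp
      rw [a1]
      exact mul_le_of_le_one_right (by positivity)
        (pow_le_one₀ (by positivity) ((div_le_one l4).2 l3))
    · intro n hn
      obtain ⟨a1, a2⟩ := Finset.mem_filter.1 hn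
      exact Finset.mem_filter.2 ⟨a1, fun p hp => ⟨fun hpz => (a2 p hp).1 (hpz.trans h1), (a2 p hp).2⟩⟩
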